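import Mathlib
import Pool.Agent.W926.PS.Stm

namespace W368.PS

open Finset W926.PS

theorem rich : S_GL → S_WT → S_UNIV → S_RICH := by
  classical
  intro hGL hWT hU
  obtain ⟨C5, h5⟩ := hU Bool 5
  obtain ⟨C3, h3⟩ := hU Bool 3
  obtain ⟨C9, h9⟩ := hU (Fin 3) 9
  refine ⟨C5 + C9 + 2 * C3, fun r κ a => ?_⟩
  obtain ⟨LL, hLL⟩ : ∃ LL, LL = Nat.log 2 (r * (a + 1)) := ⟨_, rfl⟩
  rw [← hLL]
  have hpos : r * a ≤ 2 ^ (LL + 1) := by
    have h1 : r * (a + 1) < 2 ^ (LL + 1) := by
      rw [hLL]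
      exact Nat.lt_pow_succ_log_self (by norm_num) _
    have h2 : r * a ≤ r * (a + 1) := Nat.mul_le_mul_left _ (by omega)
    omega
  have hr : r ≤ 2 ^ (LL + 1) := by
    have h1 : r * (a + 1) < 2 ^ (LL + 1) := by
      rw [hLL]
      exact Nat.lt_pow_succ_log_self (by norm_num) _
    have h2 : r * 1 ≤ r * (a + 1) := Nat.mul_le_mul_left _ (by omega)
    omega
  -- the keys
  have hL : ∀ φ : Lab r a → Bool, ∃ key : Om r a → ℕ, Function.Injective key ∧
      LabKey φ key := by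
    intro φ
    obtain ⟨key, h1, h2⟩ := hGL r a st0 (fun x p => φ (lab x p)) (by
      intro x y p h
      have : lab x p = lab y p := by
        unfold lab
        congr 1
        funext e
        by_cases he : e < p.2
        · rw [if_pos he, if_pos he]
          refine h (p.1, e) (Or.inr ⟨rfl, ?_⟩)
          unfold nrk
          exact Nat.add_lt_add_left he _
        · rw [if_neg he, if_neg he]
      show φ (lab x p) = φ (lab y p)
      rw [this])
    exact ⟨key, h1, h2⟩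
  have hP : ∀ (st : Pos r a → ℕ) (φ : Pos r a → Bool), ∃ key : Om r a → ℕ,
      Function.Injective key ∧ PosKey st φ key := by
    intro st φ
    obtain ⟨key, h1, h2⟩ := hGL r a st (fun _ p => φ p) (fun _ _ _ _ => rfl)
    exact ⟨key, h1, h2⟩
  choose kL kLi kLk using hL
  choose kP kPi kPk using hP
  choose kW kWi kWk using hWT r a
  obtain ⟨FL, hFL, hFL'⟩ := h5 (Lab r a) (a + LL + 1) (by
    rw [Fintype.card_prod, Fintype.card_prod, Fintype.card_fun, Fintype.card_fin,
      Fintype.card_fin, Fintype.card_bool]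
    calc r * a * 2 ^ a ≤ 2 ^ (LL + 1) * 2 ^ a := Nat.mul_le_mul_right _ hpos
      _ = 2 ^ (a + LL + 1) := by rw [← pow_add]; congr 1; omega)
  obtain ⟨FW, hFW, hFW'⟩ := h9 (Fin r × (Fin a → Bool)) (a + LL + 1) (by
    rw [Fintype.card_prod, Fintype.card_fun, Fintype.card_fin,
      Fintype.card_fin, Fintype.card_bool]
    calc r * 2 ^ a ≤ 2 ^ (LL + 1) * 2 ^ a := Nat.mul_le_mul_right _ hr
      _ = 2 ^ (a + LL + 1) := by rw [← pow_add]; congr 1; omega)
  obtain ⟨FP, hFP, hFP'⟩ := h3 (Pos r a) (LL + 1) (by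
    rw [Fintype.card_prod, Fintype.card_fin, Fintype.card_fin]
    exact hpos)
  obtain ⟨A1, hA1⟩ : ∃ A, A = FL.image kL := ⟨_, rfl⟩
  obtain ⟨A2, hA2⟩ : ∃ A, A = FW.image kW := ⟨_, rfl⟩
  obtain ⟨A3, hA3⟩ : ∃ A, A = ((univ : Finset (Fin r)) ×ˢ FP).image
      (fun t => kP (st1 t.1) t.2) := ⟨_, rfl⟩
  obtain ⟨A4, hA4⟩ : ∃ A, A = ((univ : Finset (Fin r × Fin r)) ×ˢ FP).image
      (fun t => kP (st2 t.1.1 t.1.2) t.2) := ⟨_, rfl⟩
  obtain ⟨A5, hA5⟩ : ∃ A, A = (((univ : Finset (Fin r)) ×ˢ range κ) ×ˢ FP).image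
      (fun t => kP (stO κ t.1.1 t.1.2) t.2) := ⟨_, rfl⟩
  obtain ⟨A6, hA6⟩ : ∃ A, A = ((univ : Finset (Fin r)) ×ˢ range (a / κ + 1)).image
      (fun t => kP (stA t.1 (t.2 * κ)) (fun _ => false)) := ⟨_, rfl⟩
  obtain ⟨A7, hA7⟩ : ∃ A, A = ((univ : Finset (Fin r × Fin r)) ×ˢ range (a / κ + 1)).image
      (fun t => kP (stB t.1.1 t.1.2 (t.2 * κ)) (fun _ => false)) := ⟨_, rfl⟩
  have c1 : A1.card ≤ C5 * (a + LL + 1 + 1) := by
    rw [hA1]; exact card_image_le.trans hFL
  have c2 : A2.card ≤ C9 * (a + LL + 1 + 1) := by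
    rw [hA2]; exact card_image_le.trans hFW
  have c3 : A3.card ≤ r * (C3 * (LL + 1 + 1)) := by
    rw [hA3]
    refine card_image_le.trans ?_
    rw [card_product, card_univ, Fintype.card_fin]
    exact Nat.mul_le_mul_left _ hFP
  have c4 : A4.card ≤ r * r * (C3 * (LL + 1 + 1)) := by
    rw [hA4]
    refine card_image_le.trans ?_
    rw [card_product, card_univ, Fintype.card_prod, Fintype.card_fin]
    exact Nat.mul_le_mul_left _ hFP
  have c5 : A5.card ≤ r * κ * (C3 * (LL + 1 + 1)) := by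
    rw [hA5]
    refine card_image_le.trans ?_
    rw [card_product, card_product, card_univ, Fintype.card_fin, card_range]
    exact Nat.mul_le_mul_left _ hFP
  have c6 : A6.card ≤ r * (a / κ + 1) := by
    rw [hA6]
    refine card_image_le.trans ?_
    rw [card_product, card_univ, Fintype.card_fin, card_range]
  have c7 : A7.card ≤ r * r * (a / κ + 1) := by
    rw [hA7]
    refine card_image_le.trans ?_
    rw [card_product, card_univ, Fintype.card_prod, Fintype.card_fin, card_range]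
  have uniof : ∀ (F : Finset (Om r a → ℕ)) (st : Pos r a → ℕ), (∀ φ ∈ FP, kP st φ ∈ F) →
      Uni F st := by
    intro F st hF S hS φ
    obtain ⟨φ', h1, h2⟩ := hFP' S hS φ
    exact ⟨kP st φ', hF φ' h1, φ', h2, kPk st φ'⟩
  refine ⟨A1 ∪ (A2 ∪ (A3 ∪ (A4 ∪ (A5 ∪ (A6 ∪ A7))))), ?_, ?_⟩
  · refine ⟨?_, ?_, ?_, ?_, ?_, ?_, ?_, ?_⟩
    · intro key hkey
      simp only [mem_union] at hkey
      rcases hkey with h | h | h | h | h | h | h
      · rw [hA1, mem_image] at h
        obtain ⟨φ, -, rfl⟩ := h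
        exact kLi φ
      · rw [hA2, mem_image] at h
        obtain ⟨φ, -, rfl⟩ := h
        exact kWi φ
      · rw [hA3, mem_image] at h
        obtain ⟨φ, -, rfl⟩ := h
        exact kPi _ _
      · rw [hA4, mem_image] at h
        obtain ⟨φ, -, rfl⟩ := h
        exact kPi _ _
      · rw [hA5, mem_image] at h
        obtain ⟨φ, -, rfl⟩ := h
        exact kPi _ _
      · rw [hA6, mem_image] at h
        obtain ⟨φ, -, rfl⟩ := h
        exact kPi _ _
      · rw [hA7, mem_image] at h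
        obtain ⟨φ, -, rfl⟩ := h
        exact kPi _ _
    · intro S hS φ
      obtain ⟨φ', h1, h2⟩ := hFL' S hS φ
      refine ⟨kL φ', ?_, φ', h2, kLk φ'⟩
      simp only [mem_union]
      left
      rw [hA1]
      exact mem_image_of_mem _ h1
    · intro S hS W
      obtain ⟨W', h1, h2⟩ := hFW' S hS W
      refine ⟨kW W', ?_, W', h2, kWk W'⟩
      simp only [mem_union]
      right; left
      rw [hA2]
      exact mem_image_of_mem _ h1
    · intro j
      refine uniof _ _ fun φ hφ => ?_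
      simp only [mem_union]
      right; right; left
      rw [hA3]
      exact mem_image.2 ⟨(j, φ), mem_product.2 ⟨mem_univ _, hφ⟩, rfl⟩
    · intro i j
      refine uniof _ _ fun φ hφ => ?_
      simp only [mem_union]
      right; right; right; left
      rw [hA4]
      exact mem_image.2 ⟨((i, j), φ), mem_product.2 ⟨mem_univ _, hφ⟩, rfl⟩
    · intro j o ho
      refine uniof _ _ fun φ hφ => ?_
      simp only [mem_union]
      right; right; right; right; left
      rw [hA5]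
      exact mem_image.2 ⟨((j, o), φ), mem_product.2
        ⟨mem_product.2 ⟨mem_univ _, mem_range.2 ho⟩, hφ⟩, rfl⟩
    · intro j k hk
      refine ⟨kP (stA j (k * κ)) (fun _ => false), ?_, _, kPk _ _⟩
      simp only [mem_union]
      right; right; right; right; right; left
      rw [hA6]
      exact mem_image.2 ⟨(j, k), mem_product.2 ⟨mem_univ _, mem_range.2 (by omega)⟩, rfl⟩
    · intro i j k hk
      refine ⟨kP (stB i j (k * κ)) (fun _ => false), ?_, _, kPk _ _⟩
      simp only [mem_union]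
      right; right; right; right; right; right
      rw [hA7]
      exact mem_image.2 ⟨((i, j), k), mem_product.2 ⟨mem_univ _, mem_range.2 (by omega)⟩, rfl⟩
  · have u1 := card_union_le A1 (A2 ∪ (A3 ∪ (A4 ∪ (A5 ∪ (A6 ∪ A7)))))
    have u2 := card_union_le A2 (A3 ∪ (A4 ∪ (A5 ∪ (A6 ∪ A7))))
    have u3 := card_union_le A3 (A4 ∪ (A5 ∪ (A6 ∪ A7)))
    have u4 := card_union_le A4 (A5 ∪ (A6 ∪ A7))
    have u5 := card_union_le A5 (A6 ∪ A7)
    have u6 := card_union_le A6 A7
    generalize a / κ + 1 = m at *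
    have hsum : (A1 ∪ (A2 ∪ (A3 ∪ (A4 ∪ (A5 ∪ (A6 ∪ A7)))))).card ≤
        C5 * (a + LL + 1 + 1) + C9 * (a + LL + 1 + 1) + r * (C3 * (LL + 1 + 1)) +
        r * r * (C3 * (LL + 1 + 1)) + r * κ * (C3 * (LL + 1 + 1)) + r * m + r * r * m := by
      omega
    refine hsum.trans ?_
    have hX : 1 ≤ (r + 1) * (r + κ + 1) := Nat.mul_pos (by omega) (by omega)
    have hY : r + r * r + r * κ ≤ (r + 1) * (r + κ + 1) := by nlinarith
    have e1 : (C5 + C9 + 2 * C3) * (r + 1) * (r + κ + 1) * (LL + 1) =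
        (C5 + C9 + 2 * C3) * (((r + 1) * (r + κ + 1)) * (LL + 1)) := by ring
    rw [e1]
    generalize (r + 1) * (r + κ + 1) = X at hX hY
    have f1 : (C5 + C9) * (1 * (LL + 1)) ≤ (C5 + C9) * (X * (LL + 1)) :=
      Nat.mul_le_mul_left _ (Nat.mul_le_mul_right _ hX)
    have f2 : C3 * ((r + r * r + r * κ) * (LL + 1 + 1)) ≤ C3 * (X * (2 * (LL + 1))) :=
      Nat.mul_le_mul_left _ (Nat.mul_le_mul hY (by omega))
    have f3 : (C5 + C9) * (a + 1) ≤ (C5 + C9 + 2 * C3) * (a + 1) :=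
      Nat.mul_le_mul_right _ (by omega)
    linarith [f1, f2, f3]

end W368.PS
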